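import Pool.Agent.H53.CZ.Targets

/-!
Module CM of the board cd (MP_f2da09_co): a vertex-minor-closed class is closed under injective
comap.
-/

namespace Pool.Agent.H2.CZD

open Pool.Agent.H53.CZD

theorem pf_CM : CM := by
  intro F hF m n
  induction n generalizing m with
  | zero =>
    intro G f hf h
    have hm : m = 0 := by
      have := Fintype.card_le_of_injective f hf
      simpa using this
    subst hm
    refine hF.iso _ _ _ ⟨⟨Equiv.refl _, ?_⟩⟩ h
    intro a
    exact a.elim0
  | succ n ih =>
    intro G f hf h
    by_cases hs : Function.Surjective f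
    · have hm : m = n + 1 := Fin.equiv_iff_eq.mp ⟨Equiv.ofBijective f ⟨hf, hs⟩⟩
      subst hm
      exact hF.iso _ _ _ ⟨(SimpleGraph.Iso.comap (Equiv.ofBijective f ⟨hf, hs⟩) G).symm⟩ h
    · have hs' : ∃ v, ∀ i, f i ≠ v := by
        by_contra hcon
        apply hs
        intro v
        by_contra hv
        exact hcon ⟨v, fun i hi => hv ⟨i, hi⟩⟩
      obtain ⟨v, hv⟩ := hs'
      choose g hg using fun i => Fin.exists_succAbove_eq (hv i)
      have hfg : f = v.succAbove ∘ g := funext fun i => (hg i).symm
      have hc : G.comap f = (G.comap v.succAbove).comap g := by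
        rw [hfg]
        rfl
      rw [hc]
      refine ih _ _ g ?_ (hF.del n G v h)
      intro a b hab
      apply hf
      rw [← hg a, ← hg b, hab]

end Pool.Agent.H2.CZD
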